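import Pool.Agent.P.MP_9957ef_pr.H.Bridge

set_option autoImplicit false

open MeasureTheory ProbabilityTheory Filter Topology

namespace Pool.Agent.Results.MP_9957ef_pr.ExactRange

/-- Half-space exponential last passage percolation with arbitrary diagonal rates `α n > 0`.
The mean square change of the passage time from `(1,1)` to `(n,n)` under resampling of the
diagonal is negligible against `(1/2 - α n)₊ n + n^(2/3)` if and only if `(1/2 - α n)₊ → 0`. -/
theorem result :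
    ∀ (Ω : Type) [MeasurableSpace Ω] (P : Measure Ω) [IsProbabilityMeasure P]
      (E : ℤ × ℤ → Ω → ℝ),
      (∀ z, Measurable (E z)) → iIndepFun E P →
      (∀ z, Measure.map (E z) P = expMeasure 1) →
      ∀ (G : (ℤ × ℤ → ℝ) → ℤ × ℤ → ℤ × ℤ → ℝ),
      (∀ W a b, G W a b = sSup {w : ℝ | ∃ (m : ℕ) (π : ℕ → ℤ × ℤ), π 0 = a ∧ π m = b ∧
          (∀ k < m, π (k + 1) = π k + (1, 0) ∨ π (k + 1) = π k + (0, 1)) ∧
          (∀ k ≤ m, (π k).2 ≤ (π k).1) ∧
          w = ∑ k ∈ Finset.range (m + 1), W (π k)}) →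
      ∀ (α : ℕ → ℝ), (∀ n, 0 < α n) →
      (Tendsto (fun n : ℕ => (∫⁻ ω, ENNReal.ofReal
          ((G (fun z => if z.1 = z.2 then (α n)⁻¹ * E z ω else E z ω) (1, 1) (n, n) -
            G (fun z => if z.1 = z.2 then (α n)⁻¹ * E (z.1, z.1 + 1) ω else E z ω)
              (1, 1) (n, n)) ^ 2) ∂P) /
          ENNReal.ofReal (max (1 / 2 - α n) 0 * n + (n : ℝ) ^ ((2 : ℝ) / 3))) atTop (𝓝 0) ↔
        Tendsto (fun n : ℕ => max (1 / 2 - α n) 0) atTop (𝓝 0)) := by
  intro Ω _ P _ E hEm hEi hEl G hG α hα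
  have hGL : ∀ W a b, G W a b = Pool.Agent.P.MP_9957ef_pr.L 0 W a b := by
    intro W a b
    rw [hG]
    unfold Pool.Agent.P.MP_9957ef_pr.L Pool.Agent.P.MP_9957ef_pr.IsPath
      Pool.Agent.P.MP_9957ef_pr.pval
    simp only [add_zero, and_assoc]
  simp only [hGL]
  exact Pool.Agent.P.MP_9957ef_pr.exact_range' Ω P E hEm hEi hEl α hα

end Pool.Agent.Results.MP_9957ef_pr.ExactRange
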